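import Pool.Agent.Helper446.CB.Hier

/-!
Enumerability from (enumerations of) a set: positive relative enumerability.
-/

namespace Pool.Agent.H288R3.CGC

open Encodable Pool.Agent.Helper446 Pool.Agent.Helper446.RE Pool.Agent.Helper446.CB

variable {α β γ : Type} [Primcodable α] [Primcodable β] [Primcodable γ]

/-- `S` is enumeration reducible to `B`. -/
def EIn (B : Set ℕ) (S : α → Prop) : Prop :=
  ∃ R : α → List ℕ → Prop, REPred (fun x : α × List ℕ => R x.1 x.2) ∧
    ∀ a, S a ↔ ∃ c, R a c ∧ ∀ i ∈ c, i ∈ B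

variable {B : Set ℕ}

theorem EIn.of_eq {S T : α → Prop} (h : EIn B S) (hST : ∀ a, S a ↔ T a) : EIn B T := by
  have : S = T := funext fun a => propext (hST a)
  rw [← this]; exact h

theorem EIn.of_re {S : α → Prop} (h : REPred S) : EIn B S := by
  refine ⟨fun a _ => S a, RE.comp h Computable.fst, fun a => ⟨fun h => ⟨[], h, ?_⟩, ?_⟩⟩
  · intro x hx; simp at hx
  · rintro ⟨_, h, _⟩; exact h

theorem EIn.mem {f : α → ℕ} (hf : Computable f) : EIn B fun a => f a ∈ B := by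
  refine ⟨fun a c => f a ∈ c, RE.mem_list (f := fun x : α × List ℕ => f x.1)
    (l := fun x : α × List ℕ => x.2) (by fun_prop) (by fun_prop), fun a => ?_⟩
  constructor
  · intro h
    exact ⟨[f a], by simp, fun x hx => by simp at hx; rw [hx]; exact h⟩
  · rintro ⟨c, h1, h2⟩; exact h2 _ h1

theorem EIn.comp {S : β → Prop} (h : EIn B S) {f : α → β} (hf : Computable f) :
    EIn B fun a => S (f a) := by
  obtain ⟨R, hR, h⟩ := h
  exact ⟨fun a c => R (f a) c, RE.comp hR (f := fun x : α × List ℕ => (f x.1, x.2))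
    (by fun_prop), fun a => h (f a)⟩

theorem EIn.and {S T : α → Prop} (hS : EIn B S) (hT : EIn B T) : EIn B fun a => S a ∧ T a := by
  obtain ⟨R, hR, h1⟩ := hS
  obtain ⟨R', hR', h2⟩ := hT
  refine ⟨fun a c => ∃ x : List ℕ × List ℕ, R a x.1 ∧ R' a x.2 ∧ c = x.1 ++ x.2, ?_,
    fun a => ?_⟩
  · refine RE.ex (p := fun (y : α × List ℕ) (x : List ℕ × List ℕ) => R y.1 x.1 ∧ R' y.1 x.2 ∧
      y.2 = x.1 ++ x.2) ?_
    refine RE.and ?_ (RE.and ?_ (RE.eq (by fun_prop) (by fun_prop)))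
    · exact RE.comp hR (f := fun y : (α × List ℕ) × (List ℕ × List ℕ) => (y.1.1, y.2.1))
        (by fun_prop)
    · exact RE.comp hR' (f := fun y : (α × List ℕ) × (List ℕ × List ℕ) => (y.1.1, y.2.2))
        (by fun_prop)
  · constructor
    · rintro ⟨h3, h4⟩
      obtain ⟨c, hc1, hc2⟩ := (h1 a).1 h3
      obtain ⟨d, hd1, hd2⟩ := (h2 a).1 h4
      refine ⟨_, ⟨(c, d), hc1, hd1, rfl⟩, fun i hi => ?_⟩
      rcases List.mem_append.1 hi with h | h
      exacts [hc2 i h, hd2 i h]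
    · rintro ⟨_, ⟨⟨c, d⟩, hc1, hd1, rfl⟩, h3⟩
      exact ⟨(h1 a).2 ⟨c, hc1, fun i hi => h3 i (List.mem_append_left _ hi)⟩,
        (h2 a).2 ⟨d, hd1, fun i hi => h3 i (List.mem_append_right _ hi)⟩⟩

theorem EIn.or {S T : α → Prop} (hS : EIn B S) (hT : EIn B T) : EIn B fun a => S a ∨ T a := by
  obtain ⟨R, hR, h1⟩ := hS
  obtain ⟨R', hR', h2⟩ := hT
  refine ⟨fun a c => R a c ∨ R' a c, RE.or hR hR', fun a => ?_⟩
  simp only [h1, h2]
  constructor
  · rintro (⟨c, h3, h4⟩ | ⟨c, h3, h4⟩)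
    exacts [⟨c, Or.inl h3, h4⟩, ⟨c, Or.inr h3, h4⟩]
  · rintro ⟨c, h3 | h3, h4⟩
    exacts [Or.inl ⟨c, h3, h4⟩, Or.inr ⟨c, h3, h4⟩]

theorem EIn.ex {S : α → β → Prop} (hS : EIn B fun x : α × β => S x.1 x.2) :
    EIn B fun a => ∃ b, S a b := by
  obtain ⟨R, hR, h1⟩ := hS
  refine ⟨fun a c => ∃ b, R (a, b) c, ?_, fun a => ?_⟩
  · refine RE.ex (p := fun (y : α × List ℕ) (b : β) => R (y.1, b) y.2) ?_
    exact RE.comp hR (f := fun y : (α × List ℕ) × β => ((y.1.1, y.2), y.1.2)) (by fun_prop)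
  · constructor
    · rintro ⟨b, hb⟩
      obtain ⟨c, h2, h3⟩ := (h1 (a, b)).1 hb
      exact ⟨c, ⟨b, h2⟩, h3⟩
    · rintro ⟨c, ⟨b, h2⟩, h3⟩
      exact ⟨b, (h1 (a, b)).2 ⟨c, h2, h3⟩⟩

theorem EIn.all_lt {S : α → ℕ → Prop} (hS : EIn B fun x : α × ℕ => S x.1 x.2) {f : α → ℕ}
    (hf : Computable f) : EIn B fun a => ∀ i < f a, S a i := by
  obtain ⟨R, hR, h1⟩ := hS
  refine ⟨fun a c => ∀ i < f a, ∃ d : List ℕ, R (a, i) d ∧ ∀ x ∈ d, x ∈ c, ?_, fun a => ?_⟩
  · refine RE.all_lt (p := fun (y : α × List ℕ) (i : ℕ) =>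
      ∃ d : List ℕ, R (y.1, i) d ∧ ∀ x ∈ d, x ∈ y.2) ?_ (by fun_prop)
    refine RE.ex (p := fun (y : (α × List ℕ) × ℕ) (d : List ℕ) =>
      R (y.1.1, y.2) d ∧ ∀ x ∈ d, x ∈ y.1.2) ?_
    refine RE.and ?_ ?_
    · exact RE.comp hR (f := fun y : ((α × List ℕ) × ℕ) × List ℕ =>
        ((y.1.1.1, y.1.2), y.2)) (by fun_prop)
    · refine RE.all_mem (p := fun (y : ((α × List ℕ) × ℕ) × List ℕ) (x : ℕ) => x ∈ y.1.1.2)
        (l := fun y => y.2) ?_ (by fun_prop)
      exact RE.mem_list (by fun_prop) (by fun_prop)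
  · constructor
    · intro h
      have h2 : ∀ i, ∃ d : List ℕ, i < f a → R (a, i) d ∧ ∀ x ∈ d, x ∈ B := by
        intro i
        by_cases hi : i < f a
        · obtain ⟨d, hd⟩ := (h1 (a, i)).1 (h i hi)
          exact ⟨d, fun _ => hd⟩
        · exact ⟨[], fun h => absurd h hi⟩
      choose d hd using h2
      refine ⟨(List.range (f a)).flatMap d, fun i hi => ⟨d i, (hd i hi).1, ?_⟩, ?_⟩
      · intro x hx
        exact List.mem_flatMap.2 ⟨i, List.mem_range.2 hi, hx⟩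
      · intro x hx
        obtain ⟨i, hi, hx⟩ := List.mem_flatMap.1 hx
        exact (hd i (List.mem_range.1 hi)).2 x hx
    · rintro ⟨c, hc, hok⟩ i hi
      obtain ⟨d, h2, h3⟩ := hc i hi
      exact (h1 (a, i)).2 ⟨d, h2, fun x hx => hok x (h3 x hx)⟩

/-- A number coding the finite set of the elements of a list. -/
def bitsOf : List ℕ → ℕ
  | [] => 0
  | i :: c => bitsOf c ||| 2 ^ i

theorem testBit_bitsOf (c : List ℕ) (i : ℕ) : (bitsOf c).testBit i = true ↔ i ∈ c := by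
  induction c with
  | nil => simp [bitsOf]
  | cons a c ih =>
    rw [bitsOf, Nat.testBit_or, Bool.or_eq_true, ih, Nat.testBit_two_pow, List.mem_cons]
    simp only [decide_eq_true_eq]
    constructor
    · rintro (h | h)
      exacts [Or.inr h, Or.inl h.symm]
    · rintro (h | h)
      exacts [Or.inr h.symm, Or.inl h]

theorem pow_comp : Computable fun n : ℕ => 2 ^ n := by
  have h := Primrec.nat_rec₁ (f := fun _ r : ℕ => r * 2) 1
    (Primrec.nat_mul.comp Primrec.snd (Primrec.const 2))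
  refine h.to_comp.of_eq fun n => ?_
  induction n with
  | zero => rfl
  | succ n ih => simp only [pow_succ, ← ih]

@[fun_prop] theorem pow_comp' {f : α → ℕ} (hf : Computable f) : Computable fun a => 2 ^ f a :=
  pow_comp.comp hf

theorem testBit_comp : Computable fun p : ℕ × ℕ => p.1.testBit p.2 := by
  have hpow : Primrec fun n : ℕ => 2 ^ n := by
    have h := Primrec.nat_rec₁ (f := fun _ r : ℕ => r * 2) 1
      (Primrec.nat_mul.comp Primrec.snd (Primrec.const 2))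
    refine h.of_eq fun n => ?_
    induction n with
    | zero => rfl
    | succ n ih => simp only [pow_succ, ← ih]
  have h1 : Primrec fun p : ℕ × ℕ => decide (p.1 / 2 ^ p.2 % 2 = 1) :=
    (Primrec.eq.decide).comp (Primrec.nat_mod.comp (Primrec.nat_div.comp Primrec.fst
      (hpow.comp Primrec.snd)) (Primrec.const 2)) (Primrec.const 1)
  refine h1.to_comp.of_eq fun p => ?_
  rw [Nat.testBit_eq_decide_div_mod_eq]

/-- Enumeration reducibility with finite sets coded by bits. -/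
theorem EIn.bits {A : Set ℕ} (h : EIn B fun y : ℕ => y ∈ A) :
    ∃ W : ℕ × ℕ → Prop, REPred W ∧
      ∀ y : ℕ, y ∈ A ↔ ∃ u : ℕ, W (y, u) ∧ ∀ i : ℕ, u.testBit i = true → i ∈ B := by
  obtain ⟨R, hR, h⟩ := h
  refine ⟨fun x => ∃ c : List ℕ, R x.1 c ∧ ∀ i ∈ c, x.2.testBit i = true, ?_, fun y => ?_⟩
  · refine RE.ex (p := fun (x : ℕ × ℕ) (c : List ℕ) => R x.1 c ∧ ∀ i ∈ c, x.2.testBit i = true)
      (RE.and ?_ ?_)
    · exact RE.comp hR (f := fun y : (ℕ × ℕ) × List ℕ => (y.1.1, y.2)) (by fun_prop)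
    · refine RE.all_mem (p := fun (y : (ℕ × ℕ) × List ℕ) (i : ℕ) => y.1.2.testBit i = true)
        ?_ (l := fun y => y.2) (by fun_prop)
      exact RE.eq (testBit_comp.comp (g := fun z : ((ℕ × ℕ) × List ℕ) × ℕ => (z.1.1.2, z.2))
        (by fun_prop)) (by fun_prop)
  · refine (h y).trans ?_
    constructor
    · rintro ⟨c, h1, h2⟩
      exact ⟨bitsOf c, ⟨c, h1, fun i hi => (testBit_bitsOf c i).2 hi⟩,
        fun i hi => h2 i ((testBit_bitsOf c i).1 hi)⟩
    · rintro ⟨u, ⟨c, h1, h2⟩, h3⟩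
      exact ⟨c, h1, fun i hi => h3 i (h2 i hi)⟩

/-- The enumeration equivalence of a set with the complement of a graph, from a family of
relatively closed partitions. -/
theorem exists_graph {N : Set ℕ} {δ : Type} [Primcodable δ] (d0 : δ) (Q : ℕ → δ → Prop)
    (h1 : ∀ y ∈ N, ∃ l, Q y l) (hu : ∀ y l l', Q y l → Q y l' → l = l')
    (h2 : ∀ y l, Q y l → y ∈ N) (h3 : EIn N fun v : ℕ × δ => ¬ Q v.1 v.2) :
    ∃ f : ℕ → ℕ, EIn {k : ℕ | f (Nat.unpair k).1 ≠ (Nat.unpair k).2} (fun y : ℕ => y ∈ N) ∧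
      EIn N (fun k : ℕ => k ∈ {k : ℕ | f (Nat.unpair k).1 ≠ (Nat.unpair k).2}) := by
  classical
  have h4 : ∀ y, ∃ m : ℕ, (y ∉ N → m = 0) ∧ (y ∈ N → ∃ l, Q y l ∧ m = encode l + 1) := by
    intro y
    by_cases hy : y ∈ N
    · obtain ⟨l, hl⟩ := h1 y hy
      exact ⟨encode l + 1, fun h => absurd hy h, fun _ => ⟨l, hl, rfl⟩⟩
    · exact ⟨0, fun _ => rfl, fun h => absurd h hy⟩
  choose f hf1 hf2 using h4
  refine ⟨f, ?_, ?_⟩
  · refine (EIn.mem (B := {k : ℕ | f (Nat.unpair k).1 ≠ (Nat.unpair k).2})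
      (f := fun y : ℕ => Nat.pair y 0) (by fun_prop)).of_eq fun y => ?_
    simp only [Set.mem_ofPred_eq, Nat.unpair_pair]
    constructor
    · intro h
      by_contra hy
      exact h (hf1 y hy)
    · intro hy
      obtain ⟨l, -, hl⟩ := hf2 y hy
      omega
  · have h5 : EIn N fun k : ℕ => ((Nat.unpair k).2 = 0 ∧ (Nat.unpair k).1 ∈ N) ∨
        ((∃ l : δ, (Nat.unpair k).2 = encode l + 1 ∧ ¬ Q (Nat.unpair k).1 l) ∨
        ((Nat.unpair k).2 ≠ 0 ∧ (Nat.unpair k).2 ≠ encode (gd d0 ((Nat.unpair k).2 - 1)) + 1)) := by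
      refine EIn.or ?_ (EIn.or ?_ ?_)
      · refine EIn.and (EIn.of_re (RE.eq (by fun_prop) (by fun_prop))) (EIn.mem (by fun_prop))
      · refine EIn.ex (S := fun (k : ℕ) (l : δ) =>
          (Nat.unpair k).2 = encode l + 1 ∧ ¬ Q (Nat.unpair k).1 l) ?_
        refine EIn.and (EIn.of_re (RE.eq (by fun_prop) (by fun_prop))) ?_
        exact h3.comp (f := fun x : ℕ × δ => ((Nat.unpair x.1).1, x.2)) (by fun_prop)
      · exact EIn.of_re (RE.and (RE.ne (by fun_prop) (by fun_prop))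
          (RE.ne (by fun_prop) (by fun_prop)))
    refine h5.of_eq fun k => ?_
    simp only [Set.mem_ofPred_eq]
    generalize (Nat.unpair k).1 = y
    generalize (Nat.unpair k).2 = m
    constructor
    · rintro (⟨hm, hy⟩ | ⟨l, hm, hq⟩ | ⟨hm, hm2⟩)
      · obtain ⟨l, -, hl⟩ := hf2 y hy
        omega
      · intro hfm
        by_cases hy : y ∈ N
        · obtain ⟨l', hl', hl2⟩ := hf2 y hy
          have : encode l' = encode l := by omega
          exact hq (encode_injective this ▸ hl')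
        · have := hf1 y hy
          omega
      · intro hfm
        by_cases hy : y ∈ N
        · obtain ⟨l', hl', hl2⟩ := hf2 y hy
          apply hm2
          have : m - 1 = encode l' := by omega
          rw [this, gd_encode]
          omega
        · have := hf1 y hy
          omega
    · intro hne
      by_cases hm : m = 0
      · left
        refine ⟨hm, ?_⟩
        by_contra hy
        exact hne ((hf1 y hy).trans hm.symm)
      · right
        by_cases hm2 : m = encode (gd d0 (m - 1)) + 1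
        · left
          refine ⟨_, hm2, fun hq => ?_⟩
          obtain ⟨l', hl', hl2⟩ := hf2 y (h2 _ _ hq)
          have := hu _ _ _ hq hl'
          rw [← this] at hl2
          omega
        · right
          exact ⟨hm, hm2⟩

end Pool.Agent.H288R3.CGC
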