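import Pool.Agent.H288R3.CGC.Scheme
import Pool.Agent.H288R3.CGC.EIn

/-!
Approximation of the gauges of the cells from the cuts of a point.
-/

namespace Pool.Agent.H288R3.CGC

open Encodable Pool.Agent.Helper446 Pool.Agent.Helper446.RE Pool.Agent.Helper446.CB

theorem hh_lip {w : ℕ} {x r : ℕ → ℝ} {δ : ℝ} (_ : 0 ≤ δ) (h : |x (cn w) - r (cn w)| ≤ δ) :
    |hh w x - hh w r| ≤ ((w : ℝ) + 1) * δ := by
  have h1 : hh w x - hh w r = ((cc w : ℝ) + 1) * (x (cn w) - r (cn w)) := by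
    unfold hh; ring
  rw [h1, abs_mul, abs_of_nonneg (by positivity : (0:ℝ) ≤ (cc w : ℝ) + 1)]
  have h2 : ((cc w : ℕ) : ℝ) ≤ w := by exact_mod_cast cc_le w
  exact mul_le_mul (by linarith) h (abs_nonneg _) (by positivity)

theorem min_lip {a b c d K : ℝ} (h1 : |a - c| ≤ K) (h2 : |b - d| ≤ K) :
    |min a b - min c d| ≤ K := (abs_min_sub_min_le_max a b c d).trans (max_le h1 h2)

theorem max_lip {a b K : ℝ} (h1 : |a - b| ≤ K) :
    |max 0 a - max 0 b| ≤ K :=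
  (abs_max_sub_max_le_max 0 a 0 b).trans (max_le (by simpa using (abs_nonneg _).trans h1) h1)

theorem psiR_lip {τ w : ℕ} {v v' : ℝ} {x r : ℕ → ℝ} {K : ℝ} (h1 : |v - v'| ≤ K)
    (h2 : |hh w x - hh w r| ≤ K) : |psiR τ w v x - psiR τ w v' r| ≤ K := by
  unfold psiR
  have h3 : |-hh w x - -hh w r| ≤ K := by
    rw [← abs_neg]
    convert h2 using 2
    ring
  split_ifs
  exacts [h1, min_lip h1 (max_lip h3), min_lip h1 (max_lip h2)]

theorem phi_lip {y : ℕ} {s : List (ℕ × ℕ)} {x r : ℕ → ℝ} {δ : ℝ} (hδ : 0 ≤ δ)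
    (h : ∀ k ≤ y + s.length, |x k - r k| ≤ δ) :
    |phi y s x - phi y s r| ≤ ((y + s.length + 1 : ℕ) : ℝ) * δ := by
  induction s with
  | nil =>
    rw [phi, phi]
    have h1 : |hh (y / 2) x - hh (y / 2) r| ≤ (((y + ([] : List (ℕ × ℕ)).length + 1 : ℕ)) : ℝ) * δ := by
      refine (hh_lip hδ (h _ ?_)).trans ?_
      · exact (cn_le _).trans ((Nat.div_le_self _ _).trans (by simp))
      · refine mul_le_mul_of_nonneg_right ?_ hδ
        have : y / 2 ≤ y := Nat.div_le_self _ _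
        have h2 : ((y / 2 : ℕ) : ℝ) ≤ y := by exact_mod_cast this
        push_cast
        simp only [List.length_nil, Nat.cast_zero]
        linarith
    have h3 : |-hh (y / 2) x - -hh (y / 2) r| ≤
        (((y + ([] : List (ℕ × ℕ)).length + 1 : ℕ)) : ℝ) * δ := by
      rw [← abs_neg]
      convert h1 using 2
      ring
    refine min_lip ?_ ?_
    · simp only [sub_self, abs_zero]
      positivity
    · split_ifs
      exacts [max_lip h1, max_lip h3]
  | cons a s ih =>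
    rw [phi, phi]
    have h0 := ih fun k hk => h k (by simp only [List.length_cons]; omega)
    have hle : ((y + s.length + 1 : ℕ) : ℝ) * δ ≤ ((y + (a :: s).length + 1 : ℕ) : ℝ) * δ := by
      refine mul_le_mul_of_nonneg_right ?_ hδ
      simp only [List.length_cons]
      exact_mod_cast (by omega)
    have h1 : |hh s.length x - hh s.length r| ≤ ((y + (a :: s).length + 1 : ℕ) : ℝ) * δ := by
      refine (hh_lip hδ (h _ ?_)).trans ?_
      · exact (cn_le _).trans (by simp only [List.length_cons]; omega)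
      · refine mul_le_mul_of_nonneg_right ?_ hδ
        simp only [List.length_cons]
        exact_mod_cast (by omega)
    have h2 := psiR_lip (τ := a.1) (h0.trans hle) h1
    refine max_lip (min_lip ?_ ?_)
    · convert h2 using 2
      ring
    · rw [← abs_neg]
      convert h2 using 2
      ring

/-- Scaled positive part of the functional at a dyadic point. -/
def hpN (P : ℕ) (z : List ℕ) (w : ℕ) : ℕ :=
  ((cc w + 1) * z.getD (cn w) 0 + cb w * P) - ca w * P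

/-- Scaled negative part of the functional at a dyadic point. -/
def hnN (P : ℕ) (z : List ℕ) (w : ℕ) : ℕ :=
  ca w * P - ((cc w + 1) * z.getD (cn w) 0 + cb w * P)

/-- Scaled gauge of a piece at a dyadic point. -/
def psiN (P : ℕ) (z : List ℕ) (τ w v : ℕ) : ℕ :=
  if τ = 1 then v else if τ = 0 then min v (hnN P z w) else min v (hpN P z w)

/-- Scaled gauge of a cell at a dyadic point. -/
def phiN (p : ℕ) (z : List ℕ) (y : ℕ) : List (ℕ × ℕ) → ℕ
  | [] => min (2 ^ (p - 1)) (if y % 2 = 0 then hpN (2 ^ p) z (y / 2) else hnN (2 ^ p) z (y / 2))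
  | a :: s => min (psiN (2 ^ p) z a.1 s.length (phiN p z y s) - 2 ^ (p - (a.2 + 1)))
      (2 ^ (p - a.2) - psiN (2 ^ p) z a.1 s.length (phiN p z y s))

/-- A dyadic point. -/
noncomputable def dy (p : ℕ) (z : List ℕ) (k : ℕ) : ℝ := (z.getD k 0 : ℝ) / 2 ^ p

theorem csub_real (m n : ℕ) : ((m - n : ℕ) : ℝ) = max 0 ((m : ℝ) - n) := by
  rcases le_total n m with h | h
  · rw [Nat.cast_sub h, max_eq_right]
    have : (n : ℝ) ≤ m := by exact_mod_cast h
    linarith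
  · rw [Nat.sub_eq_zero_of_le h, max_eq_left]
    · simp
    · have : (m : ℝ) ≤ n := by exact_mod_cast h
      linarith

theorem scale_max (p : ℕ) (a : ℝ) : (2:ℝ) ^ p * max 0 a = max 0 (2 ^ p * a) := by
  rw [mul_max_of_nonneg _ _ (by positivity), mul_zero]

theorem scale_min (p : ℕ) (a b : ℝ) : (2:ℝ) ^ p * min a b = min (2 ^ p * a) (2 ^ p * b) :=
  mul_min_of_nonneg _ _ (by positivity)

theorem scale_hh (p : ℕ) (z : List ℕ) (w : ℕ) : (2:ℝ) ^ p * hh w (dy p z) =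
    (((cc w + 1) * z.getD (cn w) 0 + cb w * 2 ^ p : ℕ) : ℝ) - ((ca w * 2 ^ p : ℕ) : ℝ) := by
  unfold hh dy
  have h : (2:ℝ) ^ p ≠ 0 := by positivity
  push_cast
  field_simp
  ring

theorem scale_hp (p : ℕ) (z : List ℕ) (w : ℕ) :
    (hpN (2 ^ p) z w : ℝ) = 2 ^ p * max 0 (hh w (dy p z)) := by
  rw [scale_max, scale_hh, hpN, csub_real]

theorem scale_hn (p : ℕ) (z : List ℕ) (w : ℕ) :
    (hnN (2 ^ p) z w : ℝ) = 2 ^ p * max 0 (-hh w (dy p z)) := by
  rw [scale_max, mul_neg, scale_hh, hnN, csub_real, neg_sub]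

theorem scale_psi (p : ℕ) (z : List ℕ) (τ w v : ℕ) (v' : ℝ) (h : (v : ℝ) = 2 ^ p * v') :
    (psiN (2 ^ p) z τ w v : ℝ) = 2 ^ p * psiR τ w v' (dy p z) := by
  unfold psiN psiR
  split_ifs
  · exact h
  · rw [scale_min, Nat.cast_min, scale_hn, h]
  · rw [scale_min, Nat.cast_min, scale_hp, h]

theorem scale_cr {p t : ℕ} (h : t ≤ p) : ((2 ^ (p - t) : ℕ) : ℝ) = 2 ^ p * cr t := by
  obtain ⟨q, rfl⟩ := Nat.exists_eq_add_of_le h
  rw [Nat.add_sub_cancel_left, cr, pow_add, one_div, inv_pow]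
  push_cast
  field_simp

theorem scale_phi {p : ℕ} {z : List ℕ} {y : ℕ} {s : List (ℕ × ℕ)} (hp : 1 ≤ p)
    (hs : ∀ b ∈ s, b.2 + 1 ≤ p) : (phiN p z y s : ℝ) = 2 ^ p * phi y s (dy p z) := by
  induction s with
  | nil =>
    rw [phiN, phi, scale_min, Nat.cast_min]
    congr 1
    · rw [scale_cr hp, cr, pow_one]
    · split_ifs
      exacts [scale_hp _ _ _, scale_hn _ _ _]
  | cons a s ih =>
    have h1 := ih fun b hb => hs b (List.mem_cons_of_mem _ hb)
    have h2 : a.2 + 1 ≤ p := hs a List.mem_cons_self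
    rw [phiN, phi, Nat.cast_min, csub_real, csub_real, scale_max, scale_min,
      scale_psi p z a.1 s.length _ _ h1, scale_cr h2, scale_cr (by omega), mul_sub, mul_sub,
      max_min_distrib_left]

/-- The approximation condition. -/
def Info (x : ℕ → ℝ) (p : ℕ) (z : List ℕ) : Prop :=
  ∀ k < z.length, 2 * Nat.pair k (Nat.pair (Nat.pair (z.getD k 0) 1) (2 ^ p - 1)) ∈ NS x ∧
    2 * Nat.pair k (Nat.pair (Nat.pair (z.getD k 0 + 1) 0) (2 ^ p - 1)) + 1 ∈ NS x

theorem two_pow_cast (p : ℕ) : ((2 ^ p - 1 : ℕ) : ℝ) + 1 = 2 ^ p := by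
  rw [Nat.cast_sub Nat.one_le_two_pow]
  push_cast
  ring

theorem Info.abs {x : ℕ → ℝ} {p : ℕ} {z : List ℕ} (h : Info x p z) {k : ℕ} (hk : k < z.length) :
    |x k - dy p z k| ≤ 1 / 2 ^ p := by
  obtain ⟨h1, h2⟩ := h k hk
  rw [even_mem, two_pow_cast] at h1
  rw [odd_mem, two_pow_cast] at h2
  have hP : (0:ℝ) < 2 ^ p := by positivity
  rw [abs_le]
  unfold dy
  push_cast at h1 h2
  rw [sub_div] at h1
  rw [sub_zero, add_div] at h2
  constructor <;> linarith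

theorem exists_info {x : ℕ → ℝ} (hx : ∀ n, x n ∈ Set.Icc (0:ℝ) 1) (p L : ℕ) :
    ∃ z : List ℕ, z.length = L ∧ Info x p z := by
  refine ⟨(List.range L).map fun k => ⌊x k * 2 ^ p⌋₊, by simp, fun k hk => ?_⟩
  have hk' : k < L := by simpa using hk
  have hget : ((List.range L).map fun k => ⌊x k * 2 ^ p⌋₊).getD k 0 = ⌊x k * 2 ^ p⌋₊ := by
    simp [List.getD_eq_getElem?_getD, hk']
  rw [hget, even_mem, odd_mem, two_pow_cast]
  have hP : (0:ℝ) < 2 ^ p := by positivity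
  have h1 : 0 ≤ x k * 2 ^ p := mul_nonneg (hx k).1 hP.le
  have h2 := Nat.floor_le h1
  have h3 := Nat.lt_floor_add_one (x k * 2 ^ p)
  constructor
  · rw [div_lt_iff₀ hP]
    push_cast
    linarith
  · rw [lt_div_iff₀ hP]
    push_cast
    linarith

/-- The parameters are large enough. -/
def Big (y : ℕ) (a : ℕ × ℕ) (s : List (ℕ × ℕ)) (p : ℕ) (z : List ℕ) : Prop :=
  1 ≤ p ∧ (∀ b ∈ s, b.2 + 1 ≤ p) ∧ a.2 ≤ p ∧ y + s.length < z.length

theorem approx {x : ℕ → ℝ} {y : ℕ} {a : ℕ × ℕ} {s : List (ℕ × ℕ)} {p : ℕ} {z : List ℕ}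
    (hb : Big y a s p z) (hi : Info x p z) :
    |2 ^ p * psi y s a.1 x - (psiN (2 ^ p) z a.1 s.length (phiN p z y s) : ℝ)| ≤
      ((y + s.length + 1 : ℕ) : ℝ) := by
  obtain ⟨h1, h2, -, h4⟩ := hb
  have hP : (0:ℝ) < 2 ^ p := by positivity
  have h5 : ∀ k ≤ y + s.length, |x k - dy p z k| ≤ 1 / 2 ^ p := fun k hk => hi.abs (by omega)
  have h6 := phi_lip (y := y) (s := s) (by positivity) h5
  have h7 : |hh s.length x - hh s.length (dy p z)| ≤ ((y + s.length + 1 : ℕ) : ℝ) * (1 / 2 ^ p) := by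
    refine (hh_lip (by positivity) (h5 _ ?_)).trans ?_
    · exact (cn_le _).trans (by omega)
    · refine mul_le_mul_of_nonneg_right ?_ (by positivity)
      exact_mod_cast (by omega)
  have h8 := psiR_lip (τ := a.1) h6 h7
  rw [scale_psi p z a.1 s.length _ _ (scale_phi h1 h2), ← mul_sub, abs_mul,
    abs_of_pos hP, psi]
  calc (2:ℝ) ^ p * _ ≤ 2 ^ p * (((y + s.length + 1 : ℕ) : ℝ) * (1 / 2 ^ p)) :=
        mul_le_mul_of_nonneg_left h8 hP.le
    _ = _ := by field_simp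

theorem exists_big {x : ℕ → ℝ} (hx : ∀ n, x n ∈ Set.Icc (0:ℝ) 1) (y : ℕ) (a : ℕ × ℕ)
    (s : List (ℕ × ℕ)) {ε : ℝ} (hε : 0 < ε) : ∃ (p : ℕ) (z : List ℕ), Big y a s p z ∧ Info x p z ∧
      2 * ((y + s.length + 1 : ℕ) : ℝ) < 2 ^ p * ε := by
  obtain ⟨p0, hp0⟩ := pow_unbounded_of_one_lt (2 * ((y + s.length + 1 : ℕ) : ℝ) / ε)
    (by norm_num : (1:ℝ) < 2)
  have hM : ∃ M, ∀ b ∈ s, b.2 + 1 ≤ M := by
    induction s with
    | nil => exact ⟨0, by simp⟩
    | cons b s ih =>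
      clear hp0
      have : ∃ M, ∀ b ∈ s, b.2 + 1 ≤ M := by
        clear ih
        induction s with
        | nil => exact ⟨0, by simp⟩
        | cons c s ih =>
          obtain ⟨M, hM⟩ := ih
          refine ⟨max M (c.2 + 1), fun d hd => ?_⟩
          rcases List.mem_cons.1 hd with rfl | hd
          exacts [le_max_right _ _, (hM d hd).trans (le_max_left _ _)]
      obtain ⟨M, hM⟩ := this
      refine ⟨max M (b.2 + 1), fun d hd => ?_⟩
      rcases List.mem_cons.1 hd with rfl | hd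
      exacts [le_max_right _ _, (hM d hd).trans (le_max_left _ _)]
  obtain ⟨M, hM⟩ := hM
  obtain ⟨z, hz1, hz2⟩ := exists_info hx (p0 + M + a.2 + 1) (y + s.length + 1)
  refine ⟨p0 + M + a.2 + 1, z, ⟨by omega, fun b hb => (hM b hb).trans (by omega), by omega,
    by omega⟩, hz2, ?_⟩
  rw [div_lt_iff₀ hε] at hp0
  refine hp0.trans_le (mul_le_mul_of_nonneg_right ?_ hε.le)
  exact pow_le_pow_right₀ (by norm_num) (by omega)

/-- The gauge is small, approximately. -/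
def LtW (y : ℕ) (a : ℕ × ℕ) (s : List (ℕ × ℕ)) (p : ℕ) (z : List ℕ) : Prop :=
  Big y a s p z ∧
    psiN (2 ^ p) z a.1 s.length (phiN p z y s) + (y + s.length + 1) < 2 ^ (p - a.2)

/-- The gauge is large, approximately. -/
def GtW (y : ℕ) (a : ℕ × ℕ) (s : List (ℕ × ℕ)) (p : ℕ) (z : List ℕ) : Prop :=
  Big y a s p z ∧
    2 ^ (p - a.2) + (y + s.length + 1) < psiN (2 ^ p) z a.1 s.length (phiN p z y s)

theorem lt_iff {x : ℕ → ℝ} (hx : ∀ n, x n ∈ Set.Icc (0:ℝ) 1) (y : ℕ) (a : ℕ × ℕ)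
    (s : List (ℕ × ℕ)) : psi y s a.1 x < cr a.2 ↔ ∃ p z, LtW y a s p z ∧ Info x p z := by
  constructor
  · intro h
    obtain ⟨p, z, hb, hi, h2⟩ := exists_big hx y a s (sub_pos.2 h)
    refine ⟨p, z, ⟨hb, ?_⟩, hi⟩
    have h3 := abs_le.1 (approx hb hi)
    have h4 := scale_cr hb.2.2.1
    have h5 : ((psiN (2 ^ p) z a.1 s.length (phiN p z y s) + (y + s.length + 1) : ℕ) : ℝ) <
        ((2 ^ (p - a.2) : ℕ) : ℝ) := by
      rw [h4]
      push_cast at h2 h3 ⊢
      rw [mul_sub] at h2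
      linarith [h3.1]
    exact_mod_cast h5
  · rintro ⟨p, z, ⟨hb, h2⟩, hi⟩
    have h3 := abs_le.1 (approx hb hi)
    have h4 := scale_cr hb.2.2.1
    have h5 : ((psiN (2 ^ p) z a.1 s.length (phiN p z y s) + (y + s.length + 1) : ℕ) : ℝ) <
        ((2 ^ (p - a.2) : ℕ) : ℝ) := by exact_mod_cast h2
    rw [h4] at h5
    push_cast at h3 h5
    have h6 : (2:ℝ) ^ p * psi y s a.1 x < 2 ^ p * cr a.2 := by linarith [h3.2]
    exact lt_of_mul_lt_mul_left h6 (by positivity)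

theorem gt_iff {x : ℕ → ℝ} (hx : ∀ n, x n ∈ Set.Icc (0:ℝ) 1) (y : ℕ) (a : ℕ × ℕ)
    (s : List (ℕ × ℕ)) : cr a.2 < psi y s a.1 x ↔ ∃ p z, GtW y a s p z ∧ Info x p z := by
  constructor
  · intro h
    obtain ⟨p, z, hb, hi, h2⟩ := exists_big hx y a s (sub_pos.2 h)
    refine ⟨p, z, ⟨hb, ?_⟩, hi⟩
    have h3 := abs_le.1 (approx hb hi)
    have h4 := scale_cr hb.2.2.1
    have h5 : ((2 ^ (p - a.2) : ℕ) : ℝ) + ((y + s.length + 1 : ℕ) : ℝ) <
        (psiN (2 ^ p) z a.1 s.length (phiN p z y s) : ℝ) := by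
      rw [h4]
      push_cast at h2 h3 ⊢
      rw [mul_sub] at h2
      linarith [h3.2]
    exact_mod_cast h5
  · rintro ⟨p, z, ⟨hb, h2⟩, hi⟩
    have h3 := abs_le.1 (approx hb hi)
    have h4 := scale_cr hb.2.2.1
    have h5 : ((2 ^ (p - a.2) : ℕ) : ℝ) + ((y + s.length + 1 : ℕ) : ℝ) <
        (psiN (2 ^ p) z a.1 s.length (phiN p z y s) : ℝ) := by exact_mod_cast h2
    rw [h4] at h5
    push_cast at h3 h5
    have h6 : (2:ℝ) ^ p * cr a.2 < 2 ^ p * psi y s a.1 x := by linarith [h3.1]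
    exact lt_of_mul_lt_mul_left h6 (by positivity)

end Pool.Agent.H288R3.CGC
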