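import Pool.Agent.H288R3.CGC.Eval

/-!
Every continuous enumeration degree is graph-cototal.
-/

namespace Pool.Agent.H288R3.CGC

open Encodable Pool.Agent.Helper446 Pool.Agent.Helper446.RE Pool.Agent.Helper446.CB

section comp

variable {α β : Type} [Primcodable α] [Primcodable β]

@[fun_prop] theorem cn_comp {f : α → ℕ} (hf : Computable f) : Computable fun a => cn (f a) := by
  unfold cn; fun_prop
@[fun_prop] theorem ca_comp {f : α → ℕ} (hf : Computable f) : Computable fun a => ca (f a) := by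
  unfold ca; fun_prop
@[fun_prop] theorem cb_comp {f : α → ℕ} (hf : Computable f) : Computable fun a => cb (f a) := by
  unfold cb; fun_prop
@[fun_prop] theorem cc_comp {f : α → ℕ} (hf : Computable f) : Computable fun a => cc (f a) := by
  unfold cc; fun_prop
@[fun_prop] theorem getD_comp {f : α → List ℕ} {g : α → ℕ} (hf : Computable f)
    (hg : Computable g) : Computable fun a => (f a).getD (g a) 0 :=
  (Primrec.list_getD 0).to_comp.comp hf hg
@[fun_prop] theorem div_comp {f : α → ℕ} (hf : Computable f) : Computable fun a => f a / 2 :=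
  (Primrec.nat_div.comp Primrec.id (Primrec.const 2)).to_comp.comp hf
@[fun_prop] theorem mod_comp {f : α → ℕ} (hf : Computable f) : Computable fun a => f a % 2 :=
  (Primrec.nat_mod.comp Primrec.id (Primrec.const 2)).to_comp.comp hf
@[fun_prop] theorem reverse_comp {f : α → List β} (hf : Computable f) :
    Computable fun a => (f a).reverse := Primrec.list_reverse.to_comp.comp hf

@[fun_prop] theorem hpN_comp {f g : α → ℕ} {z : α → List ℕ} (hf : Computable f)
    (hz : Computable z) (hg : Computable g) : Computable fun a => hpN (f a) (z a) (g a) := by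
  unfold hpN; fun_prop
@[fun_prop] theorem hnN_comp {f g : α → ℕ} {z : α → List ℕ} (hf : Computable f)
    (hz : Computable z) (hg : Computable g) : Computable fun a => hnN (f a) (z a) (g a) := by
  unfold hnN; fun_prop
@[fun_prop] theorem psiN_comp {f g h k : α → ℕ} {z : α → List ℕ} (hf : Computable f)
    (hz : Computable z) (hg : Computable g) (hh : Computable h) (hk : Computable k) :
    Computable fun a => psiN (f a) (z a) (g a) (h a) (k a) := by
  unfold psiN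
  refine cite (cp_eq hg (by fun_prop)) hk (cite (cp_eq hg (by fun_prop)) ?_ ?_) <;> fun_prop

end comp

/-- A step of the evaluation. -/
def stepN (p : ℕ) (z : List ℕ) (v : (ℕ × ℕ) × (ℕ × ℕ)) : ℕ × ℕ :=
  (v.1.1 + 1, min (psiN (2 ^ p) z v.2.1 v.1.1 v.1.2 - 2 ^ (p - (v.2.2 + 1)))
      (2 ^ (p - v.2.2) - psiN (2 ^ p) z v.2.1 v.1.1 v.1.2))

theorem fold_eq (p : ℕ) (z : List ℕ) (y : ℕ) (s : List (ℕ × ℕ)) :
    s.reverse.foldl (fun v a => stepN p z (v, a)) (0, phiN p z y []) =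
      (s.length, phiN p z y s) := by
  rw [List.foldl_reverse]
  induction s with
  | nil => rfl
  | cons a s ih =>
    rw [List.foldr_cons, ih, stepN, phiN]
    simp

/-- The type of parameters. -/
abbrev Par : Type := (ℕ × ((ℕ × ℕ) × List (ℕ × ℕ))) × (ℕ × List ℕ)

theorem phiN_comp : Computable fun v : Par => phiN v.2.1 v.2.2 v.1.1 v.1.2.2 := by
  have h1 : Computable fun v : Par => phiN v.2.1 v.2.2 v.1.1 [] := by
    simp only [phiN]
    refine cmin (by fun_prop) (cite (cp_eq ?_ ?_) ?_ ?_) <;> fun_prop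
  have h2 : Computable₂ fun (v : Par) (q : (ℕ × ℕ) × (ℕ × ℕ)) => stepN v.2.1 v.2.2 q := by
    unfold Computable₂ stepN
    fun_prop
  have h3 := RE.list_foldl (f := fun v : Par => v.1.2.2.reverse)
    (g := fun v : Par => ((0, phiN v.2.1 v.2.2 v.1.1 []) : ℕ × ℕ))
    (h := fun (v : Par) (q : (ℕ × ℕ) × (ℕ × ℕ)) => stepN v.2.1 v.2.2 q) (by fun_prop)
    (by fun_prop) h2
  refine (csnd h3).of_eq fun v => ?_
  rw [fold_eq]

theorem psi_comp : Computable fun v : Par =>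
    psiN (2 ^ v.2.1) v.2.2 v.1.2.1.1 v.1.2.2.length (phiN v.2.1 v.2.2 v.1.1 v.1.2.2) := by
  have h := phiN_comp
  fun_prop

theorem big_re : REPred fun v : Par => Big v.1.1 v.1.2.1 v.1.2.2 v.2.1 v.2.2 := by
  unfold Big
  refine RE.and (RE.le (by fun_prop) (by fun_prop)) (RE.and ?_
    (RE.and (RE.le (by fun_prop) (by fun_prop)) (RE.lt (by fun_prop) (by fun_prop))))
  exact RE.all_mem (p := fun (v : Par) (b : ℕ × ℕ) => b.2 + 1 ≤ v.2.1)
    (RE.le (by fun_prop) (by fun_prop)) (by fun_prop)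

theorem lt_re : REPred fun v : Par => LtW v.1.1 v.1.2.1 v.1.2.2 v.2.1 v.2.2 := by
  unfold LtW
  have h := psi_comp
  exact RE.and big_re (RE.lt (by fun_prop) (by fun_prop))

theorem gt_re : REPred fun v : Par => GtW v.1.1 v.1.2.1 v.1.2.2 v.2.1 v.2.2 := by
  unfold GtW
  have h := psi_comp
  exact RE.and big_re (RE.lt (by fun_prop) (by fun_prop))

theorem info_ein (x : ℕ → ℝ) : EIn (NS x) fun v : ℕ × List ℕ => Info x v.1 v.2 := by
  unfold Info
  refine EIn.all_lt (S := fun (v : ℕ × List ℕ) (k : ℕ) =>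
    2 * Nat.pair k (Nat.pair (Nat.pair (v.2.getD k 0) 1) (2 ^ v.1 - 1)) ∈ NS x ∧
    2 * Nat.pair k (Nat.pair (Nat.pair (v.2.getD k 0 + 1) 0) (2 ^ v.1 - 1)) + 1 ∈ NS x) ?_
    (by fun_prop)
  exact EIn.and (EIn.mem (by fun_prop)) (EIn.mem (by fun_prop))

variable {x : ℕ → ℝ} (hx : ∀ n, x n ∈ Set.Icc (0:ℝ) 1)
include hx

theorem lt_ein : EIn (NS x) fun v : ℕ × ((ℕ × ℕ) × List (ℕ × ℕ)) =>
    psi v.1 v.2.2 v.2.1.1 x < cr v.2.1.2 := by
  have h : EIn (NS x) fun v : ℕ × ((ℕ × ℕ) × List (ℕ × ℕ)) => ∃ q : ℕ × List ℕ,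
      LtW v.1 v.2.1 v.2.2 q.1 q.2 ∧ Info x q.1 q.2 := by
    refine EIn.ex (S := fun (v : ℕ × ((ℕ × ℕ) × List (ℕ × ℕ))) (q : ℕ × List ℕ) =>
      LtW v.1 v.2.1 v.2.2 q.1 q.2 ∧ Info x q.1 q.2) ?_
    exact EIn.and (EIn.of_re lt_re) ((info_ein x).comp (f := fun v : Par => v.2) (by fun_prop))
  refine h.of_eq fun v => ?_
  rw [lt_iff hx]
  exact Prod.exists

theorem gt_ein : EIn (NS x) fun v : ℕ × ((ℕ × ℕ) × List (ℕ × ℕ)) =>
    cr v.2.1.2 < psi v.1 v.2.2 v.2.1.1 x := by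
  have h : EIn (NS x) fun v : ℕ × ((ℕ × ℕ) × List (ℕ × ℕ)) => ∃ q : ℕ × List ℕ,
      GtW v.1 v.2.1 v.2.2 q.1 q.2 ∧ Info x q.1 q.2 := by
    refine EIn.ex (S := fun (v : ℕ × ((ℕ × ℕ) × List (ℕ × ℕ))) (q : ℕ × List ℕ) =>
      GtW v.1 v.2.1 v.2.2 q.1 q.2 ∧ Info x q.1 q.2) ?_
    exact EIn.and (EIn.of_re gt_re) ((info_ein x).comp (f := fun v : Par => v.2) (by fun_prop))
  refine h.of_eq fun v => ?_
  rw [gt_iff hx]
  exact Prod.exists

omit hx in
theorem lc_ein : EIn (NS x) fun l : List (ℕ × ℕ) => ¬ LcR l x := by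
  have h : EIn (NS x) fun l : List (ℕ × ℕ) => ∃ q : List (ℕ × ℕ) × ((ℕ × ℕ) × List (ℕ × ℕ)),
      l = q.1 ++ q.2.1 :: q.2.2 ∧
      (2 < q.2.1.1 ∨ (q.2.1.1 = 1 ∧ (2 * q.2.2.length ∈ NS x ∨ 2 * q.2.2.length + 1 ∈ NS x))) := by
    refine EIn.ex (S := fun (l : List (ℕ × ℕ)) (q : List (ℕ × ℕ) × ((ℕ × ℕ) × List (ℕ × ℕ))) =>
      l = q.1 ++ q.2.1 :: q.2.2 ∧
      (2 < q.2.1.1 ∨ (q.2.1.1 = 1 ∧
        (2 * q.2.2.length ∈ NS x ∨ 2 * q.2.2.length + 1 ∈ NS x)))) ?_
    refine EIn.and (EIn.of_re (RE.eq (by fun_prop) (by fun_prop))) (EIn.or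
      (EIn.of_re (RE.lt (by fun_prop) (by fun_prop))) (EIn.and
      (EIn.of_re (RE.eq (by fun_prop) (by fun_prop))) (EIn.or (EIn.mem (by fun_prop))
      (EIn.mem (by fun_prop)))))
  refine h.of_eq fun l => ?_
  rw [not_LcR_iff]
  constructor
  · rintro ⟨⟨u, a, s⟩, h⟩; exact ⟨u, a, s, h⟩
  · rintro ⟨u, a, s, h⟩; exact ⟨⟨u, a, s⟩, h⟩

theorem mem_ein : EIn (NS x) fun v : ℕ × List (ℕ × ℕ) => ¬ Mem v.1 v.2 x := by
  have h : EIn (NS x) fun v : ℕ × List (ℕ × ℕ) => v.2 = [] ∨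
      ∃ q : (ℕ × ℕ) × List (ℕ × ℕ), v.2 = q.1 :: q.2 ∧ (¬ LcR v.2 x ∨
        (psi v.1 q.2 q.1.1 x < cr q.1.2 ∨ cr q.1.2 < psi v.1 q.2 q.1.1 x)) := by
    refine EIn.or (EIn.of_re (RE.eq (by fun_prop) (by fun_prop))) ?_
    refine EIn.ex (S := fun (v : ℕ × List (ℕ × ℕ)) (q : (ℕ × ℕ) × List (ℕ × ℕ)) =>
      v.2 = q.1 :: q.2 ∧ (¬ LcR v.2 x ∨
        (psi v.1 q.2 q.1.1 x < cr q.1.2 ∨ cr q.1.2 < psi v.1 q.2 q.1.1 x))) ?_
    refine EIn.and (EIn.of_re (RE.eq (by fun_prop) (by fun_prop))) (EIn.or ?_ (EIn.or ?_ ?_))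
    · exact lc_ein.comp (f := fun w : (ℕ × List (ℕ × ℕ)) × ((ℕ × ℕ) × List (ℕ × ℕ)) => w.1.2)
        (by fun_prop)
    · exact (lt_ein hx).comp (f := fun w : (ℕ × List (ℕ × ℕ)) × ((ℕ × ℕ) × List (ℕ × ℕ)) =>
        (w.1.1, w.2)) (by fun_prop)
    · exact (gt_ein hx).comp (f := fun w : (ℕ × List (ℕ × ℕ)) × ((ℕ × ℕ) × List (ℕ × ℕ)) =>
        (w.1.1, w.2)) (by fun_prop)
  refine h.of_eq fun v => ?_
  obtain ⟨y, l⟩ := v
  dsimp only
  cases l with
  | nil => simp [Mem]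
  | cons a s =>
    rw [Mem]
    constructor
    · rintro (h | ⟨⟨b, t⟩, h1, h2⟩) ⟨h3, h4⟩
      · simp at h
      · simp only [List.cons.injEq] at h1
        obtain ⟨rfl, rfl⟩ := h1
        rcases h2 with h | h | h
        · exact h h3
        · exact absurd h4 h.ne
        · exact absurd h4 h.ne'
    · intro h
      right
      refine ⟨(a, s), rfl, ?_⟩
      by_cases h1 : LcR (a :: s) x
      · right
        exact lt_or_gt_of_ne fun h2 => h ⟨h1, h2⟩
      · exact Or.inl h1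

theorem clo_ein (y0 : ℕ) : EIn (NS x) fun l : List (ℕ × ℕ) => ¬ Clo y0 l x := by
  have h : EIn (NS x) fun l : List (ℕ × ℕ) => l = [] ∨
      ∃ q : (ℕ × ℕ) × List (ℕ × ℕ), l = q.1 :: q.2 ∧ (¬ LcR l x ∨
        (psi y0 q.2 q.1.1 x < cr (q.1.2 + 1) ∨ cr q.1.2 < psi y0 q.2 q.1.1 x)) := by
    refine EIn.or (EIn.of_re (RE.eq (by fun_prop) (by fun_prop))) ?_
    refine EIn.ex (S := fun (l : List (ℕ × ℕ)) (q : (ℕ × ℕ) × List (ℕ × ℕ)) =>
      l = q.1 :: q.2 ∧ (¬ LcR l x ∨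
        (psi y0 q.2 q.1.1 x < cr (q.1.2 + 1) ∨ cr q.1.2 < psi y0 q.2 q.1.1 x))) ?_
    refine EIn.and (EIn.of_re (RE.eq (by fun_prop) (by fun_prop))) (EIn.or ?_ (EIn.or ?_ ?_))
    · exact lc_ein.comp (f := fun w : List (ℕ × ℕ) × ((ℕ × ℕ) × List (ℕ × ℕ)) => w.1)
        (by fun_prop)
    · exact (lt_ein hx).comp (f := fun w : List (ℕ × ℕ) × ((ℕ × ℕ) × List (ℕ × ℕ)) =>
        (y0, ((w.2.1.1, w.2.1.2 + 1), w.2.2))) (by fun_prop)
    · exact (gt_ein hx).comp (f := fun w : List (ℕ × ℕ) × ((ℕ × ℕ) × List (ℕ × ℕ)) =>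
        (y0, w.2)) (by fun_prop)
  refine h.of_eq fun l => ?_
  cases l with
  | nil => simp [Clo]
  | cons a s =>
    rw [Clo]
    constructor
    · rintro (h | ⟨⟨b, t⟩, h1, h2⟩) ⟨h3, h4, h5⟩
      · simp at h
      · simp only [List.cons.injEq] at h1
        obtain ⟨rfl, rfl⟩ := h1
        rcases h2 with h | h | h
        · exact h h3
        · exact absurd h4 (not_le.2 h)
        · exact absurd h5 (not_le.2 h)
    · intro h
      right
      refine ⟨(a, s), rfl, ?_⟩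
      by_cases h1 : LcR (a :: s) x
      · right
        by_contra h2
        push Not at h2
        exact h ⟨h1, h2⟩
      · exact Or.inl h1

theorem main : ∃ f : ℕ → ℕ,
    EIn {k : ℕ | f (Nat.unpair k).1 ≠ (Nat.unpair k).2} (fun y : ℕ => y ∈ NS x) ∧
      EIn (NS x) (fun k : ℕ => k ∈ {k : ℕ | f (Nat.unpair k).1 ≠ (Nat.unpair k).2}) := by
  by_cases hA : ∀ y ∈ NS x, ∃ l, Mem y l x
  · exact exists_graph [] (fun y l => Mem y l x) hA (fun y l l' => Mem.uniq)
      (fun y l => Mem.mem) (mem_ein hx)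
  · push Not at hA
    obtain ⟨y0, hy0, hm⟩ := hA
    refine exists_graph [] (fun y l => l.length = y / 2 + 1 ∧ Clo y0 l x ∧
      ∃ t : ℕ, l[0]? = some (pty y, t)) ?_ ?_ ?_ ?_
    · intro y hy
      obtain ⟨s, hs1, hs2⟩ := itin hy0 hm (y / 2 + 1)
      refine ⟨s, hs1, ?_⟩
      cases s with
      | nil => simp at hs1
      | cons a s =>
        refine ⟨hs2.clo, a.2, ?_⟩
        have h1 : s.length = y / 2 := by simpa using hs1
        have h2 := hs2.type
        rw [h1, pty_iff.2 hy] at h2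
        simp [← h2]
    · rintro y l l' ⟨h1, h2, -⟩ ⟨h3, h4, -⟩
      exact (h2.in hm).uniq (h4.in hm) (h1.trans h3.symm)
    · rintro y l ⟨h1, h2, t, ht⟩
      have h3 := h2.in hm
      cases l with
      | nil => simp at h1
      | cons a s =>
        have h4 : s.length = y / 2 := by simpa using h1
        have h5 := h3.type
        simp only [List.length_cons, Nat.zero_lt_succ, getElem?_pos, List.getElem_cons_zero,
          Option.some.injEq] at ht
        rw [ht, h4] at h5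
        exact pty_iff.1 h5.symm
    · have h1 : EIn (NS x) fun v : ℕ × List (ℕ × ℕ) => (v.2.length ≠ v.1 / 2 + 1) ∨
          (¬ Clo y0 v.2 x ∨ ((v.2[0]? = none) ∨
            ∃ a : ℕ × ℕ, v.2[0]? = some a ∧ a.1 ≠ pty v.1)) := by
        have hpty : Computable fun v : (ℕ × List (ℕ × ℕ)) × (ℕ × ℕ) => pty v.1.1 := by
          unfold pty
          refine cite (cp_eq ?_ ?_) ?_ ?_ <;> fun_prop
        refine EIn.or (EIn.of_re (RE.ne (by fun_prop) (by fun_prop))) (EIn.or ?_ (EIn.or ?_ ?_))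
        · exact (clo_ein hx y0).comp (f := fun v : ℕ × List (ℕ × ℕ) => v.2) (by fun_prop)
        · exact EIn.of_re (RE.eq (by fun_prop) (by fun_prop))
        · refine EIn.of_re (RE.ex (p := fun (v : ℕ × List (ℕ × ℕ)) (a : ℕ × ℕ) =>
            v.2[0]? = some a ∧ a.1 ≠ pty v.1) ?_)
          exact RE.and (RE.eq (by fun_prop) (by fun_prop)) (RE.ne (by fun_prop) (by fun_prop))
      refine h1.of_eq fun v => ?_
      obtain ⟨y, l⟩ := v
      dsimp only
      constructor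
      · rintro (h | h | h | ⟨a, h, h'⟩) ⟨h2, h3, t, ht⟩
        · exact h h2
        · exact h h3
        · rw [h] at ht; simp at ht
        · rw [h] at ht
          simp only [Option.some.injEq] at ht
          rw [ht] at h'
          exact h' rfl
      · intro h
        by_cases h2 : l.length = y / 2 + 1
        · right
          by_cases h3 : Clo y0 l x
          · right
            cases hl : l[0]? with
            | none => left; rfl
            | some a =>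
              right
              refine ⟨a, rfl, fun h4 => h ⟨h2, h3, a.2, ?_⟩⟩
              rw [hl, ← h4]
          · exact Or.inl h3
        · exact Or.inl h2

end Pool.Agent.H288R3.CGC
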