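import Mathlib

/-!
A scheme of disjoint relatively closed families in the Hilbert cube.
-/

namespace Pool.Agent.H288R3.CGC

/-- The coordinate index of the `w`-th cut. -/
def cn (w : ℕ) : ℕ := (Nat.unpair w).1
/-- The positive part of the numerator of the `w`-th cut. -/
def ca (w : ℕ) : ℕ := (Nat.unpair (Nat.unpair (Nat.unpair w).2).1).1
/-- The negative part of the numerator of the `w`-th cut. -/
def cb (w : ℕ) : ℕ := (Nat.unpair (Nat.unpair (Nat.unpair w).2).1).2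
/-- The denominator minus one of the `w`-th cut. -/
def cc (w : ℕ) : ℕ := (Nat.unpair (Nat.unpair w).2).2

theorem cn_le (w : ℕ) : cn w ≤ w := Nat.unpair_left_le w
theorem cc_le (w : ℕ) : cc w ≤ w := (Nat.unpair_right_le _).trans (Nat.unpair_right_le w)

/-- The `w`-th affine functional. -/
noncomputable def hh (w : ℕ) (x : ℕ → ℝ) : ℝ := ((cc w : ℝ) + 1) * x (cn w) - ((ca w : ℝ) - cb w)

/-- The set coding the cuts of a point. -/
def NS (x : ℕ → ℝ) : Set ℕ := {k : ℕ | ∃ n a b c : ℕ,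
                (k = 2 * Nat.pair n (Nat.pair (Nat.pair a b) c) ∧
                  ((a:ℝ) - (b:ℝ)) / ((c:ℝ) + 1) < x n) ∨
                (k = 2 * Nat.pair n (Nat.pair (Nat.pair a b) c) + 1 ∧
                  x n < ((a:ℝ) - (b:ℝ)) / ((c:ℝ) + 1))}

theorem even_mem (x : ℕ → ℝ) (n a b c : ℕ) :
    2 * Nat.pair n (Nat.pair (Nat.pair a b) c) ∈ NS x ↔
      ((a:ℝ) - (b:ℝ)) / ((c:ℝ) + 1) < x n := by
  constructor
  · rintro ⟨n', a', b', c', ⟨h1, h2⟩ | ⟨h1, h2⟩⟩
    · have h3 := Nat.eq_of_mul_eq_mul_left (by norm_num) h1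
      simp only [Nat.pair_eq_pair] at h3
      obtain ⟨rfl, ⟨rfl, rfl⟩, rfl⟩ := h3
      exact h2
    · omega
  · intro h
    exact ⟨n, a, b, c, Or.inl ⟨rfl, h⟩⟩

theorem odd_mem (x : ℕ → ℝ) (n a b c : ℕ) :
    2 * Nat.pair n (Nat.pair (Nat.pair a b) c) + 1 ∈ NS x ↔
      x n < ((a:ℝ) - (b:ℝ)) / ((c:ℝ) + 1) := by
  constructor
  · rintro ⟨n', a', b', c', ⟨h1, h2⟩ | ⟨h1, h2⟩⟩
    · omega
    · have h3 := Nat.eq_of_mul_eq_mul_left (by norm_num) (Nat.succ_injective h1)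
      simp only [Nat.pair_eq_pair] at h3
      obtain ⟨rfl, ⟨rfl, rfl⟩, rfl⟩ := h3
      exact h2
  · intro h
    exact ⟨n, a, b, c, Or.inr ⟨rfl, h⟩⟩

theorem pair_dec (w : ℕ) : Nat.pair (cn w) (Nat.pair (Nat.pair (ca w) (cb w)) (cc w)) = w := by
  unfold cn ca cb cc
  rw [Nat.pair_unpair, Nat.pair_unpair, Nat.pair_unpair]

theorem even_iff (x : ℕ → ℝ) (w : ℕ) : 2 * w ∈ NS x ↔ 0 < hh w x := by
  have h := even_mem x (cn w) (ca w) (cb w) (cc w)
  rw [pair_dec] at h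
  rw [h, hh]
  have hc : (0:ℝ) < (cc w : ℝ) + 1 := by positivity
  rw [div_lt_iff₀ hc, sub_pos, mul_comm (x (cn w))]

theorem odd_iff (x : ℕ → ℝ) (w : ℕ) : 2 * w + 1 ∈ NS x ↔ hh w x < 0 := by
  have h := odd_mem x (cn w) (ca w) (cb w) (cc w)
  rw [pair_dec] at h
  rw [h, hh]
  have hc : (0:ℝ) < (cc w : ℝ) + 1 := by positivity
  rw [lt_div_iff₀ hc, sub_neg, mul_comm (x (cn w))]

/-- The sign of the `w`-th functional. -/
noncomputable def ty (w : ℕ) (x : ℕ → ℝ) : ℕ := if hh w x < 0 then 0 else if hh w x = 0 then 1 else 2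

/-- The gauge of a piece. -/
noncomputable def psiR (τ w : ℕ) (v : ℝ) (x : ℕ → ℝ) : ℝ :=
  if τ = 1 then v else if τ = 0 then min v (max 0 (-hh w x)) else min v (max 0 (hh w x))

/-- The radii. -/
noncomputable def cr (t : ℕ) : ℝ := (1 / 2) ^ t

/-- The gauge of a cell. -/
noncomputable def phi (y : ℕ) : List (ℕ × ℕ) → (ℕ → ℝ) → ℝ
  | [], x => min (1 / 2) (if y % 2 = 0 then max 0 (hh (y / 2) x) else max 0 (-hh (y / 2) x))
  | a :: s, x => max 0 (min (psiR a.1 s.length (phi y s x) x - cr (a.2 + 1))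
      (cr a.2 - psiR a.1 s.length (phi y s x) x))

/-- The gauge of a piece of a cell. -/
noncomputable def psi (y : ℕ) (s : List (ℕ × ℕ)) (τ : ℕ) (x : ℕ → ℝ) : ℝ :=
  psiR τ s.length (phi y s x) x

/-- The closed conditions on the types. -/
def LcR : List (ℕ × ℕ) → (ℕ → ℝ) → Prop
  | [], _ => True
  | a :: s, x => LcR s x ∧ a.1 ≤ 2 ∧ (a.1 = 1 → hh s.length x = 0)

/-- Membership in a cell. -/
def In (y : ℕ) (s : List (ℕ × ℕ)) (x : ℕ → ℝ) : Prop := LcR s x ∧ 0 < phi y s x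

/-- Membership in a closed piece. -/
def Mem (y : ℕ) : List (ℕ × ℕ) → (ℕ → ℝ) → Prop
  | [], _ => False
  | a :: s, x => LcR (a :: s) x ∧ psi y s a.1 x = cr a.2

/-- Membership in the closure of a cell. -/
def Clo (y : ℕ) : List (ℕ × ℕ) → (ℕ → ℝ) → Prop
  | [], _ => False
  | a :: s, x => LcR (a :: s) x ∧ cr (a.2 + 1) ≤ psi y s a.1 x ∧ psi y s a.1 x ≤ cr a.2

theorem cr_pos (t : ℕ) : 0 < cr t := by unfold cr; positivity

theorem cr_lt {s t : ℕ} : cr s < cr t ↔ t < s := by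
  unfold cr
  exact pow_lt_pow_iff_right_of_lt_one₀ (by norm_num) (by norm_num)

theorem cr_inj {s t : ℕ} (h : cr s = cr t) : s = t := by
  rcases lt_trichotomy s t with h1 | h1 | h1
  · have := cr_lt.2 h1; linarith
  · exact h1
  · have := cr_lt.2 h1; linarith

theorem cr_uniq {s t : ℕ} {v : ℝ} (h1 : cr (s + 1) < v) (h2 : v < cr s) (h3 : cr (t + 1) < v)
    (h4 : v < cr t) : s = t := by
  have h5 := cr_lt.1 (h1.trans h4)
  have h6 := cr_lt.1 (h3.trans h2)
  omega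

theorem psiR_le (τ w : ℕ) (v : ℝ) (x : ℕ → ℝ) : psiR τ w v x ≤ v := by
  unfold psiR
  split_ifs
  exacts [le_rfl, min_le_left _ _, min_le_left _ _]

theorem phi_le (y : ℕ) (s : List (ℕ × ℕ)) (x : ℕ → ℝ) : phi y s x ≤ 1 / 2 := by
  induction s with
  | nil => exact min_le_left _ _
  | cons a s ih =>
    rw [phi]
    refine max_le (by norm_num) ((min_le_left _ _).trans ?_)
    have h1 := psiR_le a.1 s.length (phi y s x) x
    have h2 := cr_pos (a.2 + 1)
    linarith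

theorem phi_cons_pos {y : ℕ} {a : ℕ × ℕ} {s : List (ℕ × ℕ)} {x : ℕ → ℝ} :
    0 < phi y (a :: s) x ↔ cr (a.2 + 1) < psi y s a.1 x ∧ psi y s a.1 x < cr a.2 := by
  rw [phi, lt_max_iff, psi]
  simp [sub_pos]

theorem psi_pos {y : ℕ} {τ : ℕ} {s : List (ℕ × ℕ)} {x : ℕ → ℝ} (h : 0 < psi y s τ x) :
    0 < phi y s x := h.trans_le (psiR_le _ _ _ _)

theorem ty_eq {y : ℕ} {a : ℕ × ℕ} {s : List (ℕ × ℕ)} {x : ℕ → ℝ} (h : 0 < psi y s a.1 x)
    (hl : LcR (a :: s) x) : a.1 = ty s.length x := by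
  obtain ⟨-, h2, h3⟩ := hl
  unfold psi psiR at h
  unfold ty
  by_cases h4 : a.1 = 1
  · have := h3 h4
    rw [this]; simp [h4]
  · by_cases h5 : a.1 = 0
    · rw [if_neg h4, if_pos h5, lt_min_iff, lt_max_iff] at h
      have h6 : hh s.length x < 0 := by
        rcases h.2 with h | h
        · exact absurd h (lt_irrefl _)
        · linarith
      rw [if_pos h6, h5]
    · rw [if_neg h4, if_neg h5, lt_min_iff, lt_max_iff] at h
      have h6 : 0 < hh s.length x := by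
        rcases h.2 with h | h
        · exact absurd h (lt_irrefl _)
        · exact h
      rw [if_neg (by linarith), if_neg (by linarith)]
      omega

theorem psi_ty_pos {y : ℕ} {s : List (ℕ × ℕ)} {x : ℕ → ℝ} (h : 0 < phi y s x) :
    0 < psi y s (ty s.length x) x := by
  unfold psi psiR ty
  by_cases h1 : hh s.length x < 0
  · rw [if_pos h1, if_neg (by norm_num), if_pos rfl, lt_min_iff, lt_max_iff]
    exact ⟨h, Or.inr (by linarith)⟩
  · rw [if_neg h1]
    by_cases h2 : hh s.length x = 0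
    · rw [if_pos h2, if_pos rfl]; exact h
    · rw [if_neg h2, if_neg (by norm_num), if_neg (by norm_num), lt_min_iff, lt_max_iff]
      refine ⟨h, Or.inr ?_⟩
      exact lt_of_le_of_ne (not_lt.1 h1) (Ne.symm h2)

theorem LcR_ty {s : List (ℕ × ℕ)} {x : ℕ → ℝ} (h : LcR s x) (t : ℕ) :
    LcR ((ty s.length x, t) :: s) x := by
  refine ⟨h, ?_, ?_⟩
  · simp only [ty]; split_ifs <;> norm_num
  · show ty s.length x = 1 → _
    unfold ty
    split_ifs with h1 h2
    · intro h; norm_num at h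
    · intro _; exact h2
    · intro h; norm_num at h

theorem In.tail {y : ℕ} {a : ℕ × ℕ} {s : List (ℕ × ℕ)} {x : ℕ → ℝ} (h : In y (a :: s) x) :
    In y s x :=
  ⟨h.1.1, psi_pos ((cr_pos _).trans (phi_cons_pos.1 h.2).1)⟩

theorem In.type {y : ℕ} {a : ℕ × ℕ} {s : List (ℕ × ℕ)} {x : ℕ → ℝ} (h : In y (a :: s) x) :
    a.1 = ty s.length x :=
  ty_eq ((cr_pos _).trans (phi_cons_pos.1 h.2).1) h.1

theorem In.uniq {y : ℕ} {s s' : List (ℕ × ℕ)} {x : ℕ → ℝ} (h : In y s x) (h' : In y s' x)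
    (hl : s.length = s'.length) : s = s' := by
  induction s generalizing s' with
  | nil =>
    cases s' with
    | nil => rfl
    | cons _ _ => simp at hl
  | cons a s ih =>
    cases s' with
    | nil => simp at hl
    | cons a' s' =>
      have hl' : s.length = s'.length := by simpa using hl
      have h1 := ih h.tail h'.tail hl'
      subst h1
      have h2 := h.type
      have h3 := h'.type
      have h4 := phi_cons_pos.1 h.2
      have h5 := phi_cons_pos.1 h'.2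
      rw [h2] at h4
      rw [h3] at h5
      have h6 := cr_uniq h4.1 h4.2 h5.1 h5.2
      have h7 : a = a' := Prod.ext (h2.trans h3.symm) h6
      rw [h7]

theorem In.base {y : ℕ} {s : List (ℕ × ℕ)} {x : ℕ → ℝ} (h : In y s x) : In y [] x := by
  induction s with
  | nil => exact h
  | cons a s ih => exact ih h.tail

theorem In.nil_iff {y : ℕ} {x : ℕ → ℝ} : In y [] x ↔ y ∈ NS x := by
  unfold In
  rw [phi, LcR]
  rcases Nat.even_or_odd' y with ⟨w, rfl | rfl⟩
  · have h1 : 2 * w % 2 = 0 := by omega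
    have h2 : 2 * w / 2 = w := by omega
    rw [even_iff, h1, h2, if_pos rfl, lt_min_iff, lt_max_iff]
    simp
  · have h1 : ¬ (2 * w + 1) % 2 = 0 := by omega
    have h2 : (2 * w + 1) / 2 = w := by omega
    rw [odd_iff, if_neg h1, h2, lt_min_iff, lt_max_iff]
    simp

theorem In.trunc {y : ℕ} {s : List (ℕ × ℕ)} {x : ℕ → ℝ} (h : In y s x) {n : ℕ}
    (hn : n ≤ s.length) : ∃ s', s'.length = n ∧ In y s' x := by
  induction s with
  | nil => exact ⟨[], by simp at hn; simp [hn], h⟩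
  | cons a s ih =>
    rcases Nat.lt_or_ge n (s.length + 1) with h1 | h1
    · exact ih h.tail (by omega)
    · exact ⟨a :: s, by simp at hn ⊢; omega, h⟩

theorem Mem.in {y : ℕ} {a : ℕ × ℕ} {s : List (ℕ × ℕ)} {x : ℕ → ℝ} (h : Mem y (a :: s) x) :
    In y s x := ⟨h.1.1, psi_pos (h.2 ▸ cr_pos _)⟩

theorem Mem.type {y : ℕ} {a : ℕ × ℕ} {s : List (ℕ × ℕ)} {x : ℕ → ℝ} (h : Mem y (a :: s) x) :
    a.1 = ty s.length x := ty_eq (h.2 ▸ cr_pos _) h.1

theorem Mem.not_lt {y : ℕ} {a a' : ℕ × ℕ} {s s' : List (ℕ × ℕ)} {x : ℕ → ℝ}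
    (h : Mem y (a :: s) x) (h' : Mem y (a' :: s') x) : ¬ s.length < s'.length := by
  intro hlt
  obtain ⟨u, hu1, hu2⟩ := h'.in.trunc (n := s.length + 1) hlt
  cases u with
  | nil => simp at hu1
  | cons b u =>
    have h1 : u.length = s.length := by simpa using hu1
    have h2 := hu2.tail.uniq h.in h1
    subst h2
    have h3 := phi_cons_pos.1 hu2.2
    rw [hu2.type, ← h.type, h.2] at h3
    have h4 := cr_lt.1 h3.1
    have h5 := cr_lt.1 h3.2
    omega

theorem Mem.uniq {y : ℕ} {l l' : List (ℕ × ℕ)} {x : ℕ → ℝ} (h : Mem y l x) (h' : Mem y l' x) :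
    l = l' := by
  cases l with
  | nil => exact h.elim
  | cons a s =>
    cases l' with
    | nil => exact h'.elim
    | cons a' s' =>
      have h1 : s.length = s'.length :=
        le_antisymm (Nat.le_of_not_lt (h'.not_lt h)) (Nat.le_of_not_lt (h.not_lt h'))
      have h2 := h.in.uniq h'.in h1
      subst h2
      have h3 := h.2
      have h4 := h'.2
      rw [h.type] at h3
      rw [h'.type] at h4
      have h5 : a = a' := Prod.ext (h.type.trans h'.type.symm) (cr_inj (h3.symm.trans h4))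
      rw [h5]

theorem Mem.mem {y : ℕ} {l : List (ℕ × ℕ)} {x : ℕ → ℝ} (h : Mem y l x) : y ∈ NS x := by
  cases l with
  | nil => exact h.elim
  | cons a s => exact In.nil_iff.1 h.in.base

theorem In.next {y : ℕ} {s : List (ℕ × ℕ)} {x : ℕ → ℝ} (h : In y s x) :
    (∃ l, Mem y l x) ∨ ∃ a, In y (a :: s) x := by
  have h1 := psi_ty_pos h.2
  have h2 : psi y s (ty s.length x) x ≤ 1 :=
    ((psiR_le _ _ _ _).trans (phi_le y s x)).trans (by norm_num)
  obtain ⟨t, ht1, ht2⟩ := exists_nat_pow_near_of_lt_one h1 h2 (y := 1 / 2) (by norm_num)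
    (by norm_num)
  rcases eq_or_lt_of_le ht2 with h3 | h3
  · left
    exact ⟨(ty s.length x, t) :: s, LcR_ty h.1 t, h3⟩
  · right
    exact ⟨(ty s.length x, t), LcR_ty h.1 t, phi_cons_pos.2 ⟨ht1, h3⟩⟩

theorem itin {y : ℕ} {x : ℕ → ℝ} (hy : y ∈ NS x) (h : ∀ l, ¬ Mem y l x) (n : ℕ) :
    ∃ s : List (ℕ × ℕ), s.length = n ∧ In y s x := by
  induction n with
  | zero => exact ⟨[], rfl, In.nil_iff.2 hy⟩
  | succ n ih =>
    obtain ⟨s, hs1, hs2⟩ := ih
    rcases hs2.next with ⟨l, hl⟩ | ⟨a, ha⟩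
    · exact absurd hl (h l)
    · exact ⟨a :: s, by simp [hs1], ha⟩

theorem Clo.in {y : ℕ} {l : List (ℕ × ℕ)} {x : ℕ → ℝ} (h : Clo y l x) (hm : ∀ l, ¬ Mem y l x) :
    In y l x := by
  cases l with
  | nil => exact h.elim
  | cons a s =>
    obtain ⟨h1, h2, h3⟩ := h
    refine ⟨h1, phi_cons_pos.2 ⟨lt_of_le_of_ne h2 fun h4 => ?_, lt_of_le_of_ne h3 fun h4 => ?_⟩⟩
    · exact hm ((a.1, a.2 + 1) :: s) ⟨h1, h4.symm⟩
    · exact hm (a :: s) ⟨h1, h4⟩

theorem In.clo {y : ℕ} {a : ℕ × ℕ} {s : List (ℕ × ℕ)} {x : ℕ → ℝ} (h : In y (a :: s) x) :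
    Clo y (a :: s) x :=
  ⟨h.1, (phi_cons_pos.1 h.2).1.le, (phi_cons_pos.1 h.2).2.le⟩

theorem ty_even {x : ℕ → ℝ} {w : ℕ} : ty w x = 2 ↔ 2 * w ∈ NS x := by
  rw [even_iff, ty]
  split_ifs with h1 h2
  · simp; linarith
  · simp [h2]
  · simp only [true_iff]
    exact lt_of_le_of_ne (not_lt.1 h1) (Ne.symm h2)

theorem ty_odd {x : ℕ → ℝ} {w : ℕ} : ty w x = 0 ↔ 2 * w + 1 ∈ NS x := by
  rw [odd_iff, ty]
  split_ifs with h1 h2
  · simp [h1]
  · simp [h2]
  · simp only [false_iff, not_lt]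
    exact not_lt.1 h1

/-- The type determined by the parity. -/
def pty (y : ℕ) : ℕ := if y % 2 = 0 then 2 else 0

theorem pty_iff {x : ℕ → ℝ} {y : ℕ} : ty (y / 2) x = pty y ↔ y ∈ NS x := by
  unfold pty
  rcases Nat.even_or_odd' y with ⟨w, rfl | rfl⟩
  · have h1 : 2 * w % 2 = 0 := by omega
    have h2 : 2 * w / 2 = w := by omega
    rw [h1, h2, if_pos rfl, ty_even]
  · have h1 : ¬ (2 * w + 1) % 2 = 0 := by omega
    have h2 : (2 * w + 1) / 2 = w := by omega
    rw [if_neg h1, h2, ty_odd]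

theorem not_LcR_iff {l : List (ℕ × ℕ)} {x : ℕ → ℝ} : ¬ LcR l x ↔
    ∃ (u : List (ℕ × ℕ)) (a : ℕ × ℕ) (s : List (ℕ × ℕ)), l = u ++ a :: s ∧
      (2 < a.1 ∨ (a.1 = 1 ∧ (2 * s.length ∈ NS x ∨ 2 * s.length + 1 ∈ NS x))) := by
  induction l with
  | nil => simp [LcR]
  | cons a s ih =>
    rw [LcR, not_and_or, ih]
    constructor
    · rintro (⟨u, b, s', rfl, h⟩ | h)
      · exact ⟨a :: u, b, s', rfl, h⟩
      · refine ⟨[], a, s, rfl, ?_⟩
        rw [not_and_or] at h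
        rcases h with h | h
        · left; omega
        · right
          push Not at h
          refine ⟨h.1, ?_⟩
          rw [even_iff, odd_iff]
          rcases lt_or_gt_of_ne h.2 with h | h
          exacts [Or.inr h, Or.inl h]
    · rintro ⟨u, b, s', h, hb⟩
      cases u with
      | nil =>
        simp only [List.nil_append, List.cons.injEq] at h
        obtain ⟨rfl, rfl⟩ := h
        right
        rw [even_iff, odd_iff] at hb
        rintro ⟨h1, h2⟩
        rcases hb with h | ⟨h3, h4⟩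
        · omega
        · have := h2 h3
          rcases h4 with h | h <;> linarith
      | cons c u =>
        simp only [List.cons_append, List.cons.injEq] at h
        obtain ⟨rfl, rfl⟩ := h
        left
        exact ⟨u, b, s', rfl, hb⟩

end Pool.Agent.H288R3.CGC
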